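import Pool.Agent.KS6_65.MP.Generic

open Set Filter Topology

namespace Pool.Agent.KS6_65.MP

lemma comp_pull_iter (α : B) (h γ : Lp) (M m : ℕ) (p : E) :
    ((pr α (h.comp (γ.pull M))).1)^[m] p =
      (p.1 + m • α, h.f (p.1 + m • α) (γ.f (M • p.1 + m • (M • α))
        (γ.g (M • p.1) (h.g p.1 p.2)))) := by
  have h1 := Lp.fwd_iter α (h.comp (γ.pull M)) m p
  have h2 : M • (p.1 + m • α) = M • p.1 + m • (M • α) := by
    rw [smul_add, smul_comm]
  rw [← h2]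
  exact h1

/-- Density of the first family. -/
lemma dense_UP {a : ℝ} (ha : Irrational a) (h : Lp) {ε η : ℝ} (hε : 0 < ε) (hη : 0 < η) :
    ∃ h' : Lp, dist (pr (a : B) h') (pr (a : B) h) < η ∧ pr (a : B) h' ∈ UP ε := by
  obtain ⟨δ, hδ, hu⟩ := h.unif hε
  obtain ⟨γ, hγ⟩ := exists_loopP hδ
  obtain ⟨δ', hδ', hap⟩ := approx (a : B) h γ hη
  obtain ⟨M, hM1, hM⟩ := exists_M (a : B) hδ' 1
  refine ⟨h.comp (γ.pull M), hap M hM, ?_⟩
  rintro ⟨⟨y, z⟩, ⟨y', z'⟩⟩ hq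
  have hq' : y = y' := hq
  subst hq'
  set κ := γ.g (M • y) (h.g y z) with hκ
  set κ' := γ.g (M • y) (h.g y z') with hκ'
  obtain ⟨s, hs⟩ := hγ κ κ'
  let U : Set B := {τ | dist (γ.f (M • y + τ) κ) (γ.f (M • y + τ) κ') < δ}
  have hUo : IsOpen U := by
    refine isOpen_lt (Continuous.dist ?_ ?_) continuous_const
    · exact γ.cf.comp ((continuous_const.add continuous_id).prodMk continuous_const)
    · exact γ.cf.comp ((continuous_const.add continuous_id).prodMk continuous_const)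
  have hUn : U.Nonempty := ⟨s - M • y, by
    show dist (γ.f (M • y + (s - M • y)) κ) (γ.f (M • y + (s - M • y)) κ') < δ
    rwa [add_sub_cancel]⟩
  obtain ⟨m, hm⟩ := (dense_mul ha hM1).exists_mem_open hUo hUn
  refine ⟨m, ?_⟩
  show dist (((pr (a : B) (h.comp (γ.pull M))).1)^[m] (y, z))
    (((pr (a : B) (h.comp (γ.pull M))).1)^[m] (y, z')) < ε
  rw [comp_pull_iter, comp_pull_iter, Prod.dist_eq, dist_self]
  refine max_lt hε (hu (y + m • (a : B), _) (y + m • (a : B), _) ?_)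
  rw [Prod.dist_eq, dist_self]
  exact max_lt hδ hm

/-- Density of the second family. -/
lemma dense_UD {a : ℝ} (ha : Irrational a) (h : Lp) {ε η : ℝ} (hε : 0 < ε) (hη : 0 < η) :
    ∃ h' : Lp, dist (pr (a : B) h') (pr (a : B) h) < η ∧ pr (a : B) h' ∈ UD ε := by
  obtain ⟨δ₀, hδ₀, hu⟩ := h.unif hε
  obtain ⟨δ, hδ, hδ1, hδ2⟩ : ∃ δ > 0, δ ≤ δ₀ ∧ δ ≤ ε :=
    ⟨min δ₀ ε, lt_min hδ₀ hε, min_le_left _ _, min_le_right _ _⟩
  obtain ⟨γ, hγ⟩ := exists_loopD hδ
  obtain ⟨δ', hδ', hap⟩ := approx (a : B) h γ hη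
  obtain ⟨N, hN⟩ := exists_nat_gt (2 / δ)
  obtain ⟨M, hM1, hM⟩ := exists_M (a : B) hδ' (N + 1)
  have hMpos : 0 < M := by omega
  have hMr : (2 : ℝ) / δ < M := lt_of_lt_of_le hN (by exact_mod_cast (by omega : N ≤ M))
  refine ⟨h.comp (γ.pull M), hap M hM, ?_⟩
  rintro ⟨⟨⟨y₁, z₁⟩, ⟨y₂, z₂⟩⟩, ⟨⟨y₁', z₁'⟩, ⟨y₂', z₂'⟩⟩⟩ hq
  have hq' : y₂' - y₂ = 2 • (y₁' - y₁) := hq
  set t := y₁' - y₁ with ht
  have hy1 : y₁' = y₁ + t := by rw [ht]; abel
  have hy2 : y₂' = y₂ + 2 • t := by rw [← hq']; abel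
  set κ₁ := γ.g (M • y₁) (h.g y₁ z₁) with hκ₁
  set κ₂ := γ.g (M • y₂) (h.g y₂ z₂) with hκ₂
  set l₁ := h.g y₁' z₁' with hl₁
  set l₂ := h.g y₂' z₂' with hl₂
  obtain ⟨s, hs1, hs2⟩ := hγ (M • y₁) (M • y₂) κ₁ κ₂ l₁ l₂
  -- choose a time near t
  obtain ⟨τ, hτ1, hτ2⟩ : ∃ τ : B, M • τ = s ∧ ‖τ - t‖ < δ / 2 := by
    obtain ⟨r, hr⟩ := QuotientAddGroup.mk_surjective (s - M • t)
    set r' : ℝ := Int.fract r with hr'
    have hr2 : ((r' : ℝ) : B) = s - M • t := by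
      rw [← hr, hr']
      show ((Int.fract r : ℝ) : B) = ((r : ℝ) : B)
      have h1 : r = Int.fract r + (⌊r⌋ : ℝ) := (Int.fract_add_floor r).symm
      conv_rhs => rw [h1, AddCircle.coe_add]
      have h2 : (((⌊r⌋ : ℤ) : ℝ) : B) = 0 := by
        rw [AddCircle.coe_eq_zero_iff]
        exact ⟨⌊r⌋, by simp⟩
      rw [h2, add_zero]
    refine ⟨t + ((r' / M : ℝ) : B), ?_, ?_⟩
    · rw [smul_add, ← AddCircle.coe_nsmul, nsmul_eq_mul]
      have h1 : (M : ℝ) * (r' / M) = r' := by field_simp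
      rw [h1, hr2]
      abel
    · rw [add_sub_cancel_left]
      have h1 : ‖((r' / M : ℝ) : B)‖ ≤ ‖(r' / M : ℝ)‖ := QuotientAddGroup.norm_mk_le_norm
      refine lt_of_le_of_lt h1 ?_
      have hM0 : (0 : ℝ) < M := by exact_mod_cast hMpos
      rw [Real.norm_eq_abs, abs_of_nonneg (div_nonneg (Int.fract_nonneg r) hM0.le),
        div_lt_iff₀ hM0]
      rw [div_lt_iff₀ hδ] at hMr
      have h2 : r' < 1 := Int.fract_lt_one r
      nlinarith
  let U : Set B := {τ | (‖τ - t‖ < δ ∧ ‖2 • τ - 2 • t‖ < δ) ∧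
    (dist (γ.f (M • y₁ + M • τ) κ₁) l₁ < δ ∧ dist (γ.f (M • y₂ + 2 • (M • τ)) κ₂) l₂ < δ)}
  have hUo : IsOpen U := by
    have u1 : IsOpen {τ : B | ‖τ - t‖ < δ} :=
      isOpen_lt (by fun_prop) continuous_const
    have u2 : IsOpen {τ : B | ‖2 • τ - 2 • t‖ < δ} :=
      isOpen_lt (((continuous_nsmul 2).sub continuous_const)).norm continuous_const
    have u3 : IsOpen {τ : B | dist (γ.f (M • y₁ + M • τ) κ₁) l₁ < δ} :=
      isOpen_lt ((γ.cf.comp ((continuous_const.add (continuous_nsmul M)).prodMk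
        continuous_const)).dist continuous_const) continuous_const
    have u4 : IsOpen {τ : B | dist (γ.f (M • y₂ + 2 • (M • τ)) κ₂) l₂ < δ} :=
      isOpen_lt ((γ.cf.comp ((continuous_const.add ((continuous_nsmul 2).comp
        (continuous_nsmul M))).prodMk continuous_const)).dist continuous_const) continuous_const
    exact (u1.inter u2).inter (u3.inter u4)
  have hUn : U.Nonempty := by
    refine ⟨τ, ⟨by linarith, ?_⟩, ?_, ?_⟩
    · have h1 : 2 • τ - 2 • t = (τ - t) + (τ - t) := by rw [two_nsmul, two_nsmul]; abel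
      rw [h1]
      refine lt_of_le_of_lt (norm_add_le _ _) ?_
      linarith
    · rw [hτ1]; exact hs1
    · rw [hτ1]; exact hs2
  have hd : DenseRange (fun m : ℕ => m • (a : B)) := by
    have := dense_mul ha one_pos
    simpa using this
  obtain ⟨m, ⟨hm1, hm2⟩, hm3, hm4⟩ := hd.exists_mem_open hUo hUn
  refine ⟨m, ?_, ?_⟩
  · show dist (((pr (a : B) (h.comp (γ.pull M))).1)^[m] (y₁, z₁)) (y₁', z₁') < ε
    rw [comp_pull_iter, Prod.dist_eq]
    have h0 : dist (y₁ + m • (a : B)) y₁' < δ := by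
      rw [hy1, dist_add_left, dist_eq_norm]
      exact hm1
    refine max_lt (lt_of_lt_of_le h0 hδ2) ?_
    have h1 : z₁' = h.f y₁' l₁ := by rw [hl₁, h.fg]
    show dist (h.f (y₁ + m • (a : B)) (γ.f (M • y₁ + m • (M • (a : B))) κ₁)) z₁' < ε
    rw [h1]
    refine hu (y₁ + m • (a : B), _) (y₁', _) ?_
    rw [Prod.dist_eq]
    refine max_lt (lt_of_lt_of_le h0 hδ1) (lt_of_lt_of_le ?_ hδ1)
    rw [smul_comm m M]
    exact hm3
  · show dist (((pr (a : B) (h.comp (γ.pull M))).1)^[2 * m] (y₂, z₂)) (y₂', z₂') < ε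
    rw [comp_pull_iter, Prod.dist_eq]
    have h0 : dist (y₂ + (2 * m) • (a : B)) y₂' < δ := by
      rw [hy2, dist_add_left, dist_eq_norm, mul_smul]
      exact hm2
    refine max_lt (lt_of_lt_of_le h0 hδ2) ?_
    have h1 : z₂' = h.f y₂' l₂ := by rw [hl₂, h.fg]
    show dist (h.f (y₂ + (2 * m) • (a : B))
      (γ.f (M • y₂ + (2 * m) • (M • (a : B))) κ₂)) z₂' < ε
    rw [h1]
    refine hu (y₂ + (2 * m) • (a : B), _) (y₂', _) ?_
    rw [Prod.dist_eq]
    refine max_lt (lt_of_lt_of_le h0 hδ1) (lt_of_lt_of_le ?_ hδ1)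
    have e : (2 * m) • (M • (a : B)) = 2 • (M • (m • (a : B))) := by
      rw [mul_smul, smul_comm m M]
    show dist (γ.f (M • y₂ + (2 * m) • (M • (a : B))) κ₂) l₂ < δ
    rw [e]
    exact hm4

lemma complete_CEE : TopologicalSpace.IsCompletelyPseudoMetrizableSpace C(E, E) := by
  have h : CompleteSpace C(E, E) := inferInstance
  exact ⟨⟨inferInstance, rfl, h⟩⟩

lemma baire_FF (α : B) : BaireSpace (FF α) := by
  have := complete_CEE
  have : TopologicalSpace.IsCompletelyPseudoMetrizableSpace (FF α) :=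
    (isClosed_closure : IsClosed (FF α)).isCompletelyPseudoMetrizableSpace
  infer_instance

/-- The generic pair. -/
theorem exists_generic {a : ℝ} (ha : Irrational a) :
    ∃ F ∈ FF (a : B), (∀ n : ℕ, F ∈ UP (1 / ((n : ℝ) + 1))) ∧
      ∀ n : ℕ, F ∈ UD (1 / ((n : ℝ) + 1)) := by
  have : BaireSpace (FF (a : B)) := baire_FF _
  have : Nonempty (FF (a : B)) := ⟨⟨pr (a : B) Lp.one, subset_closure ⟨_, rfl⟩⟩⟩
  have hdense : ∀ U : Set (C(E, E) × C(E, E)),
      (∀ (h : Lp) (η : ℝ), 0 < η → ∃ h' : Lp, dist (pr (a : B) h') (pr (a : B) h) < η ∧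
        pr (a : B) h' ∈ U) → Dense (Subtype.val ⁻¹' U : Set (FF (a : B))) := by
    intro U hU
    rw [Metric.dense_iff]
    rintro ⟨F, hF⟩ r hr
    obtain ⟨_, ⟨h, rfl⟩, hh⟩ := Metric.mem_closure_iff.1 hF (r / 2) (by linarith)
    obtain ⟨h', hh', hU'⟩ := hU h (r / 2) (by linarith)
    refine ⟨⟨pr (a : B) h', subset_closure ⟨_, rfl⟩⟩, ?_, hU'⟩
    rw [Metric.mem_ball, Subtype.dist_eq]
    have h1 := dist_triangle (pr (a : B) h') (pr (a : B) h) F
    rw [dist_comm] at hh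
    linarith
  have hG : Dense (⋂ n : ℕ, (Subtype.val ⁻¹' (UP (1 / ((n : ℝ) + 1)) ∩ UD (1 / ((n : ℝ) + 1))) :
      Set (FF (a : B)))) := by
    refine dense_iInter_of_isOpen_nat (fun n => ?_) (fun n => ?_)
    · exact ((isOpen_UP _).inter (isOpen_UD _)).preimage continuous_subtype_val
    · have hn : 0 < 1 / ((n : ℝ) + 1) := by positivity
      rw [Set.preimage_inter]
      refine Dense.inter_of_isOpen_left ?_ ?_ ((isOpen_UP _).preimage continuous_subtype_val)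
      · exact hdense _ fun h η hη => dense_UP ha h hn hη
      · exact hdense _ fun h η hη => dense_UD ha h hn hη
  obtain ⟨⟨F, hF⟩, hF2⟩ := hG.nonempty
  rw [Set.mem_iInter] at hF2
  exact ⟨F, hF, fun n => (hF2 n).1, fun n => (hF2 n).2⟩

/-- Algebraic relations valid on the closure. -/
lemma FF_props {α : B} {F : C(E, E) × C(E, E)} (hF : F ∈ FF α) (x : E) :
    F.1 (F.2 x) = x ∧ F.2 (F.1 x) = x ∧ (F.1 x).1 = x.1 + α := by
  have hcl : IsClosed {F : C(E, E) × C(E, E) |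
      F.1 (F.2 x) = x ∧ F.2 (F.1 x) = x ∧ (F.1 x).1 = x.1 + α} := by
    refine IsClosed.inter ?_ (IsClosed.inter ?_ ?_)
    · exact isClosed_eq (continuous_fst.eval (continuous_snd.eval continuous_const))
        continuous_const
    · exact isClosed_eq (continuous_snd.eval (continuous_fst.eval continuous_const))
        continuous_const
    · exact isClosed_eq (continuous_fst.comp (continuous_fst.eval continuous_const))
        continuous_const
  refine closure_minimal ?_ hcl hF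
  rintro _ ⟨h, rfl⟩
  refine ⟨?_, ?_, rfl⟩
  · show h.fwd α (h.bwd α x) = x
    rw [Lp.bwd_apply, Lp.fwd_apply]
    simp [h.gf, h.fg]
  · show h.bwd α (h.fwd α x) = x
    rw [Lp.fwd_apply, Lp.bwd_apply]
    simp [h.gf, h.fg]

end Pool.Agent.KS6_65.MP
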