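import Pool.Agent.KS6_65.MP.LoopK
import Pool.Agent.KS6_65.MP.Baire

/-! The generic homeomorphism, for all exponents at once. -/

open Set Filter Topology

namespace Pool.Agent.KS6_65.MP

/-- Integer iterate of a pair of mutually inverse maps. -/
noncomputable def itz (F : C(E, E) × C(E, E)) (n : ℤ) : E → E :=
  if 0 ≤ n then (F.1)^[n.toNat] else (F.2)^[(-n).toNat]

lemma Lp.bwd_iter (α : B) (h : Lp) (m : ℕ) (p : E) :
    (h.bwd α)^[m] p = (p.1 - m • α, h.f (p.1 - m • α) (h.g p.1 p.2)) := by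
  induction m with
  | zero => simp [h.fg]
  | succ m ih =>
    rw [Function.iterate_succ_apply', ih, Lp.bwd_apply]
    simp only [h.gf, succ_nsmul, sub_sub]

lemma itz_pr (α : B) (h : Lp) (n : ℤ) (p : E) :
    itz (pr α h) n p = (p.1 + n • α, h.f (p.1 + n • α) (h.g p.1 p.2)) := by
  unfold itz
  split_ifs with h0
  · show (h.fwd α)^[n.toNat] p = _
    rw [Lp.fwd_iter]
    have e : (n.toNat : ℕ) • α = n • α := by
      rw [← natCast_zsmul, Int.toNat_of_nonneg h0]
    rw [e]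
  · show (h.bwd α)^[(-n).toNat] p = _
    rw [Lp.bwd_iter]
    have e : ((-n).toNat : ℕ) • α = -(n • α) := by
      rw [← natCast_zsmul, Int.toNat_of_nonneg (by omega), neg_zsmul]
    rw [e, sub_neg_eq_add]

lemma cont_iter2 (m : ℕ) : Continuous fun p : (C(E, E) × C(E, E)) × E => (p.1.2)^[m] p.2 := by
  induction m with
  | zero => exact continuous_snd
  | succ m ih =>
    simp only [Function.iterate_succ_apply']
    exact (continuous_fst.snd).eval ih

lemma cont_itz (n : ℤ) : Continuous fun p : (C(E, E) × C(E, E)) × E => itz p.1 n p.2 := by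
  unfold itz
  split_ifs with h0
  · exact cont_iter _
  · exact cont_iter2 _

/-- Orbits under the product of the powers with exponents `k` are ε-dense in the saturated
sets. -/
def UK {d : ℕ} (k : Fin d → ℤ) (ε : ℝ) : Set (C(E, E) × C(E, E)) :=
  {F | ∀ q ∈ (univ : Set ((Fin d → E) × B × (Fin d → Circle))), ∃ m : ℕ, (F, q) ∈
    {r : (C(E, E) × C(E, E)) × ((Fin d → E) × B × (Fin d → Circle)) |
      ∀ i, dist (itz r.1 (k i * m) (r.2.1 i))
        ((r.2.1 i).1 + k i • r.2.2.1, r.2.2.2 i) < ε}}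

lemma isOpen_UK {d : ℕ} (k : Fin d → ℤ) (ε : ℝ) : IsOpen (UK k ε) := by
  refine isOpen_forall_exists isClosed_univ _ fun m => ?_
  have e : {r : (C(E, E) × C(E, E)) × ((Fin d → E) × B × (Fin d → Circle)) |
      ∀ i, dist (itz r.1 (k i * m) (r.2.1 i))
        ((r.2.1 i).1 + k i • r.2.2.1, r.2.2.2 i) < ε} =
      ⋂ i, {r | dist (itz r.1 (k i * m) (r.2.1 i))
        ((r.2.1 i).1 + k i • r.2.2.1, r.2.2.2 i) < ε} := by
    ext r; simp
  rw [e]
  refine isOpen_iInter_of_finite fun i => isOpen_lt (Continuous.dist ?_ ?_) continuous_const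
  · have h1 : Continuous fun r : (C(E, E) × C(E, E)) × ((Fin d → E) × B × (Fin d → Circle)) =>
        r.2.1 i := (continuous_apply i).comp (continuous_fst.comp continuous_snd)
    exact (cont_itz (k i * m)).comp (continuous_fst.prodMk h1)
  · have h1 : Continuous fun r : (C(E, E) × C(E, E)) × ((Fin d → E) × B × (Fin d → Circle)) =>
        (r.2.1 i).1 := continuous_fst.comp ((continuous_apply i).comp
          (continuous_fst.comp continuous_snd))
    have h2 : Continuous fun r : (C(E, E) × C(E, E)) × ((Fin d → E) × B × (Fin d → Circle)) =>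
        k i • r.2.2.1 := (continuous_zsmul (k i)).comp
          (continuous_fst.comp (continuous_snd.comp continuous_snd))
    have h3 : Continuous fun r : (C(E, E) × C(E, E)) × ((Fin d → E) × B × (Fin d → Circle)) =>
        r.2.2.2 i := (continuous_apply i).comp
          (continuous_snd.comp (continuous_snd.comp continuous_snd))
    exact (h1.add h2).prodMk h3

lemma dense_UK {d : ℕ} (k : Fin d → ℤ) (hk0 : ∀ i, k i ≠ 0) (hk : Function.Injective k)
    {a : ℝ} (ha : Irrational a) (h : Lp) {ε η : ℝ} (hε : 0 < ε) (hη : 0 < η) :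
    ∃ h' : Lp, dist (pr (a : B) h') (pr (a : B) h) < η ∧ pr (a : B) h' ∈ UK k ε := by
  obtain ⟨δ₀, hδ₀, hu⟩ := h.unif hε
  obtain ⟨δ, hδ, hδ1, hδ2⟩ : ∃ δ > 0, δ ≤ δ₀ ∧ δ ≤ ε :=
    ⟨min δ₀ ε, lt_min hδ₀ hε, min_le_left _ _, min_le_right _ _⟩
  obtain ⟨γ, hγ⟩ := exists_loopK k hk0 hk hδ
  obtain ⟨δ', hδ', hap⟩ := approx (a : B) h γ hη
  set K : ℝ := 1 + ∑ i, |(k i : ℝ)| with hK
  have hK0 : 0 < K := by
    have : 0 ≤ ∑ i, |(k i : ℝ)| := Finset.sum_nonneg fun i _ => abs_nonneg _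
    linarith
  have hKi : ∀ i, |(k i : ℝ)| ≤ K := fun i => by
    have := Finset.single_le_sum (f := fun i => |(k i : ℝ)|) (fun i _ => abs_nonneg _)
      (Finset.mem_univ i)
    linarith
  obtain ⟨N, hN⟩ := exists_nat_gt (K / δ)
  obtain ⟨M, hM1, hM⟩ := exists_M (a : B) hδ' (N + 1)
  have hMpos : 0 < M := by omega
  have hMr : K / δ < M := lt_of_lt_of_le hN (by exact_mod_cast (by omega : N ≤ M))
  refine ⟨h.comp (γ.pull M), hap M hM, ?_⟩
  rintro ⟨p, t, z'⟩ -
  set y' : Fin d → B := fun i => (p i).1 + k i • t with hy'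
  set κ : Fin d → Circle := fun i => γ.g (M • (p i).1) (h.g (p i).1 (p i).2) with hκ
  set l : Fin d → Circle := fun i => h.g (y' i) (z' i) with hl
  obtain ⟨s, hs⟩ := hγ (fun i => M • (p i).1) κ l
  -- choose a time near t
  obtain ⟨τ, hτ1, hτ2⟩ : ∃ τ : B, M • τ = s ∧ ‖τ - t‖ < δ / K := by
    obtain ⟨r, hr⟩ := QuotientAddGroup.mk_surjective (s - M • t)
    set r' : ℝ := Int.fract r with hr'
    have hr2 : ((r' : ℝ) : B) = s - M • t := by
      rw [← hr, hr']
      show ((Int.fract r : ℝ) : B) = ((r : ℝ) : B)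
      have h1 : r = Int.fract r + (⌊r⌋ : ℝ) := (Int.fract_add_floor r).symm
      conv_rhs => rw [h1, AddCircle.coe_add]
      have h2 : (((⌊r⌋ : ℤ) : ℝ) : B) = 0 := by
        rw [AddCircle.coe_eq_zero_iff]
        exact ⟨⌊r⌋, by simp⟩
      rw [h2, add_zero]
    refine ⟨t + ((r' / M : ℝ) : B), ?_, ?_⟩
    · rw [smul_add, ← AddCircle.coe_nsmul, nsmul_eq_mul]
      have h1 : (M : ℝ) * (r' / M) = r' := by field_simp
      rw [h1, hr2]
      abel
    · rw [add_sub_cancel_left]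
      have h1 : ‖((r' / M : ℝ) : B)‖ ≤ ‖(r' / M : ℝ)‖ := QuotientAddGroup.norm_mk_le_norm
      refine lt_of_le_of_lt h1 ?_
      have hM0 : (0 : ℝ) < M := by exact_mod_cast hMpos
      rw [Real.norm_eq_abs, abs_of_nonneg (div_nonneg (Int.fract_nonneg r) hM0.le),
        div_lt_div_iff₀ hM0 hK0]
      rw [div_lt_iff₀ hδ] at hMr
      have h2 : r' < 1 := Int.fract_lt_one r
      nlinarith [Int.fract_nonneg r]
  let U : Set B := ⋂ i, {τ | ‖k i • τ - k i • t‖ < δ ∧
    dist (γ.f (M • (p i).1 + k i • (M • τ)) (κ i)) (l i) < δ}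
  have hUo : IsOpen U := by
    refine isOpen_iInter_of_finite fun i => ?_
    have u1 : IsOpen {τ : B | ‖k i • τ - k i • t‖ < δ} :=
      isOpen_lt (((continuous_zsmul (k i)).sub continuous_const)).norm continuous_const
    have u2 : IsOpen {τ : B | dist (γ.f (M • (p i).1 + k i • (M • τ)) (κ i)) (l i) < δ} :=
      isOpen_lt ((γ.cf.comp ((continuous_const.add ((continuous_zsmul (k i)).comp
        (continuous_nsmul M))).prodMk continuous_const)).dist continuous_const) continuous_const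
    exact u1.inter u2
  have hUn : U.Nonempty := by
    refine ⟨τ, mem_iInter.2 fun i => ⟨?_, ?_⟩⟩
    · rw [← zsmul_sub]
      refine lt_of_le_of_lt (norm_zsmul_le _ _) ?_
      have e : ‖k i‖ = |(k i : ℝ)| := by rw [Int.norm_eq_abs]
      rw [e]
      calc |(k i : ℝ)| * ‖τ - t‖ ≤ K * ‖τ - t‖ := by
            gcongr
            exact hKi i
        _ < K * (δ / K) := by gcongr
        _ = δ := by field_simp
    · rw [hτ1]; exact hs i
  have hd : DenseRange (fun m : ℕ => m • (a : B)) := by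
    have := dense_mul ha one_pos
    simpa using this
  obtain ⟨m, hm⟩ := hd.exists_mem_open hUo hUn
  refine ⟨m, fun i => ?_⟩
  obtain ⟨hm1, hm2⟩ := mem_iInter.1 hm i
  have e1 : (k i * m) • (a : B) = k i • (m • (a : B)) := by
    rw [mul_smul, natCast_zsmul]
  show dist (itz (pr (a : B) (h.comp (γ.pull M))) (k i * m) (p i)) (y' i, z' i) < ε
  rw [itz_pr, Prod.dist_eq, e1]
  have h0 : dist ((p i).1 + k i • (m • (a : B))) (y' i) < δ := by
    simp only [hy']
    rw [dist_add_left, dist_eq_norm]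
    exact hm1
  refine max_lt (lt_of_lt_of_le h0 hδ2) ?_
  have h1 : z' i = h.f (y' i) (l i) := by simp only [hl]; rw [h.fg]
  have h2 : M • ((p i).1 + k i • (m • (a : B))) = M • (p i).1 + k i • (M • (m • (a : B))) := by
    rw [smul_add, smul_comm M (k i)]
  show dist (h.f ((p i).1 + k i • (m • (a : B)))
    (γ.f (M • ((p i).1 + k i • (m • (a : B)))) (κ i))) (z' i) < ε
  rw [h2, h1]
  refine hu ((p i).1 + k i • (m • (a : B)), _) (y' i, _) ?_
  rw [Prod.dist_eq]
  exact max_lt (lt_of_lt_of_le h0 hδ1) (lt_of_lt_of_le hm2 hδ1)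

/-- The generic pair, good for all tuples of distinct nonzero exponents at once. -/
theorem exists_genericK {a : ℝ} (ha : Irrational a) :
    ∃ F ∈ FF (a : B), (∀ n : ℕ, F ∈ UP (1 / ((n : ℝ) + 1))) ∧
      ∀ (d : ℕ) (k : Fin d → ℤ), (∀ i, k i ≠ 0) → Function.Injective k →
        ∀ n : ℕ, F ∈ UK k (1 / ((n : ℝ) + 1)) := by
  have : BaireSpace (FF (a : B)) := baire_FF _
  have : Nonempty (FF (a : B)) := ⟨⟨pr (a : B) Lp.one, subset_closure ⟨_, rfl⟩⟩⟩
  have hdense : ∀ U : Set (C(E, E) × C(E, E)),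
      (∀ (h : Lp) (η : ℝ), 0 < η → ∃ h' : Lp, dist (pr (a : B) h') (pr (a : B) h) < η ∧
        pr (a : B) h' ∈ U) → Dense (Subtype.val ⁻¹' U : Set (FF (a : B))) := by
    intro U hU
    rw [Metric.dense_iff]
    rintro ⟨F, hF⟩ r hr
    obtain ⟨_, ⟨h, rfl⟩, hh⟩ := Metric.mem_closure_iff.1 hF (r / 2) (by linarith)
    obtain ⟨h', hh', hU'⟩ := hU h (r / 2) (by linarith)
    refine ⟨⟨pr (a : B) h', subset_closure ⟨_, rfl⟩⟩, ?_, hU'⟩
    rw [Metric.mem_ball, Subtype.dist_eq]
    have h1 := dist_triangle (pr (a : B) h') (pr (a : B) h) F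
    rw [dist_comm] at hh
    linarith
  let V : Option (Σ d : ℕ, {k : Fin d → ℤ // (∀ i, k i ≠ 0) ∧ Function.Injective k}) × ℕ →
      Set (C(E, E) × C(E, E)) := fun x => match x with
    | (none, n) => UP (1 / ((n : ℝ) + 1))
    | (some ⟨_, k⟩, n) => UK k.1 (1 / ((n : ℝ) + 1))
  have hG : Dense (⋂ x, (Subtype.val ⁻¹' (V x) : Set (FF (a : B)))) := by
    refine dense_iInter_of_isOpen (fun x => ?_) (fun x => ?_)
    · rcases x with ⟨_ | ⟨d, k⟩, n⟩
      · exact (isOpen_UP _).preimage continuous_subtype_val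
      · exact (isOpen_UK k.1 _).preimage continuous_subtype_val
    · rcases x with ⟨_ | ⟨d, k⟩, n⟩
      · exact hdense _ fun h η hη => dense_UP ha h (by positivity) hη
      · exact hdense _ fun h η hη => dense_UK k.1 k.2.1 k.2.2 ha h (by positivity) hη
  obtain ⟨⟨F, hF⟩, hF2⟩ := hG.nonempty
  rw [Set.mem_iInter] at hF2
  exact ⟨F, hF, fun n => hF2 (none, n), fun d k h0 h1 n => hF2 (some ⟨d, ⟨k, h0, h1⟩⟩, n)⟩

end Pool.Agent.KS6_65.MP
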