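import Pool.Agent.KS6_65.MP.Generic

/-! A loop of rotations whose values along `a i + k i • s` are jointly almost arbitrary. -/

open Set Filter Topology MeasureTheory
open scoped Real

namespace Pool.Agent.KS6_65.MP

/-- Nested intervals for widely separated frequencies. -/
lemma nested {ι : Type*} [DecidableEq ι] {δ : ℝ} (hδ0 : 0 < δ) (hδ1 : δ ≤ 1) (f c τ : ι → ℝ)
    (S : Finset ι) :
    (∀ i ∈ S, ∀ j ∈ S, i ≠ j → 2 * |f i| ≤ δ * |f j| ∨ 2 * |f j| ≤ δ * |f i|) →
    ∀ u l : ℝ, 0 ≤ l → (∀ i ∈ S, 2 ≤ |f i| * l) →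
    ∃ s, u ≤ s ∧ s ≤ u + l ∧ ∀ i ∈ S, ∃ z : ℤ, |c i + f i * s - τ i - z| ≤ δ := by
  induction S using Finset.strongInduction with
  | H S ih =>
    intro sep u l hl hS
    rcases S.eq_empty_or_nonempty with rfl | hne
    · exact ⟨u, le_rfl, by linarith, by simp⟩
    obtain ⟨i₀, hi₀, hmin⟩ := S.exists_min_image (fun i => |f i|) hne
    have h2 := hS i₀ hi₀
    have hf0 : 0 < |f i₀| := by
      rcases (abs_nonneg (f i₀)).eq_or_lt with h | h
      · rw [← h] at h2; linarith
      · exact h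
    have hfne : f i₀ ≠ 0 := abs_pos.1 hf0
    have hl2 : 1 / |f i₀| ≤ l / 2 := by
      rw [div_le_iff₀ hf0]; linarith
    obtain ⟨s₀, z₀, hs1, hs2, hs3⟩ : ∃ (s₀ : ℝ) (z₀ : ℤ), u ≤ s₀ ∧ s₀ ≤ u + 1 / |f i₀| ∧
        c i₀ + f i₀ * s₀ - τ i₀ = z₀ := by
      set v : ℝ := c i₀ + f i₀ * u - τ i₀ with hv
      rcases lt_or_gt_of_ne hfne with h | h
      · refine ⟨u + (⌊v⌋ - v) / f i₀, ⌊v⌋, ?_, ?_, ?_⟩
        · have : 0 ≤ (⌊v⌋ - v) / f i₀ :=
            div_nonneg_of_nonpos (by linarith [Int.floor_le v]) h.le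
          linarith
        · have h3 : (⌊v⌋ - v) / f i₀ ≤ 1 / |f i₀| := by
            rw [abs_of_neg h, ← neg_div_neg_eq, neg_sub]
            have : 0 < -f i₀ := by linarith
            gcongr
            linarith [Int.lt_floor_add_one v]
          linarith
        · field_simp
          rw [hv]; ring
      · refine ⟨u + (⌈v⌉ - v) / f i₀, ⌈v⌉, ?_, ?_, ?_⟩
        · have : 0 ≤ (⌈v⌉ - v) / f i₀ := div_nonneg (by linarith [Int.le_ceil v]) h.le
          linarith
        · have h3 : (⌈v⌉ - v) / f i₀ ≤ 1 / |f i₀| := by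
            rw [abs_of_pos h]
            gcongr
            linarith [Int.ceil_lt_add_one v]
          linarith
        · field_simp
          rw [hv]; ring
    obtain ⟨s, hs4, hs5, hs6⟩ := ih (S.erase i₀) (Finset.erase_ssubset hi₀)
      (fun i hi j hj hij => sep i (Finset.mem_of_mem_erase hi) j (Finset.mem_of_mem_erase hj) hij)
      s₀ (δ / |f i₀|) (by positivity) (fun i hi => by
        have hiS := Finset.mem_of_mem_erase hi
        have hne := Finset.ne_of_mem_erase hi
        have hm : |f i₀| ≤ |f i| := hmin i hiS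
        have h3 : 2 * |f i₀| ≤ δ * |f i| := by
          rcases sep i hiS i₀ hi₀ hne with h | h
          · nlinarith
          · exact h
        rw [← mul_div_assoc, le_div_iff₀ hf0]
        linarith)
    have h5 : δ / |f i₀| ≤ 1 / |f i₀| := by gcongr
    refine ⟨s, by linarith, by linarith, fun i hi => ?_⟩
    by_cases h : i = i₀
    · subst h
      refine ⟨z₀, ?_⟩
      rw [← hs3]
      have e : c i + f i * s - τ i - (c i + f i * s₀ - τ i) = f i * (s - s₀) := by ring
      rw [e, abs_mul, abs_of_nonneg (by linarith : 0 ≤ s - s₀)]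
      calc |f i| * (s - s₀) ≤ |f i| * (δ / |f i|) := by gcongr; linarith
        _ = δ := by field_simp
    · exact hs6 i (Finset.mem_erase.2 ⟨h, hi⟩)

lemma vol_pre (a : B) {n : ℤ} (hn : n ≠ 0) (r : ℝ) :
    volume {s : B | ‖a + n • s‖ ≤ r} ≤ ENNReal.ofReal (2 * r) := by
  have h1 := (measurePreserving_add_left (volume : Measure B) a).comp
    (Measure.measurePreserving_zsmul (volume : Measure B) hn)
  have h2 := h1.measure_preimage (s := Metric.closedBall (0 : B) r)
    (Metric.isClosed_closedBall.measurableSet.nullMeasurableSet)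
  have h3 : {s : B | ‖a + n • s‖ ≤ r} =
      ((fun x => a + x) ∘ fun g => n • g) ⁻¹' Metric.closedBall (0 : B) r := by
    ext s
    simp
  rw [h3, h2, AddCircle.volume_closedBall]
  exact ENNReal.ofReal_le_ofReal (min_le_right _ _)

lemma norm_le_sub_int (x : ℝ) (z : ℤ) : ‖(x : B)‖ ≤ |x - z| := by
  have h1 : ((x : ℝ) : B) = ((x - z : ℝ) : B) := by
    rw [AddCircle.coe_sub]
    have h2 : (((z : ℤ) : ℝ) : B) = 0 := by
      rw [AddCircle.coe_eq_zero_iff]
      exact ⟨z, by simp⟩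
    rw [h2, sub_zero]
  rw [h1]
  exact QuotientAddGroup.norm_mk_le_norm

/-- A good time: all points are away from the ends of the blocks and in different blocks. -/
lemma exists_good {d : ℕ} (hd : 0 < d) (k : Fin d → ℤ) (hk0 : ∀ i, k i ≠ 0)
    (hk : Function.Injective k) (A : Fin d → ℝ) :
    ∃ S₀ : ℝ, (∀ i, ∀ z : ℤ, 1 / (8 * (d : ℝ)) < |(8 * d ^ 2 : ℕ) * (A i + k i * S₀) - z|) ∧
      ∀ i j, i ≠ j → ∀ z : ℤ,
        1 / (8 * (d : ℝ) ^ 2) < |(A i - A j) + ((k i : ℝ) - k j) * S₀ - z| := by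
  have hd' : (0 : ℝ) < d := by exact_mod_cast hd
  set R : ℕ := 8 * d ^ 2 with hR
  have hR0 : 0 < R := by positivity
  let X : Fin d ⊕ (Fin d × Fin d) → Set B := fun x => match x with
    | Sum.inl i => {s : B | ‖((R * A i : ℝ) : B) + (R * k i : ℤ) • s‖ ≤ 1 / (8 * (d : ℝ))}
    | Sum.inr (i, j) => if i = j then ∅ else
        {s : B | ‖((A i - A j : ℝ) : B) + (k i - k j) • s‖ ≤ 1 / (8 * (d : ℝ) ^ 2)}
  have hX : volume (⋃ x, X x) < 1 := by
    refine lt_of_le_of_lt (measure_iUnion_fintype_le _ _) ?_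
    rw [Fintype.sum_sum_type]
    have h1 : ∑ i : Fin d, volume (X (Sum.inl i)) ≤ ENNReal.ofReal (1 / 4) := by
      calc _ ≤ ∑ _i : Fin d, ENNReal.ofReal (2 * (1 / (8 * (d : ℝ)))) := by
            refine Finset.sum_le_sum fun i _ => vol_pre _ ?_ _
            have := hk0 i
            positivity
        _ = ENNReal.ofReal (d * (2 * (1 / (8 * (d : ℝ))))) := by
            rw [Finset.sum_const, Finset.card_univ, Fintype.card_fin, nsmul_eq_mul,
              ENNReal.ofReal_mul hd'.le, ENNReal.ofReal_natCast]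
        _ = _ := by congr 1; field_simp; norm_num
    have h2 : ∑ p : Fin d × Fin d, volume (X (Sum.inr p)) ≤ ENNReal.ofReal (1 / 4) := by
      calc _ ≤ ∑ _p : Fin d × Fin d, ENNReal.ofReal (2 * (1 / (8 * (d : ℝ) ^ 2))) := by
            refine Finset.sum_le_sum fun p _ => ?_
            obtain ⟨i, j⟩ := p
            by_cases hij : i = j
            · simp [X, hij]
            · simp only [X, hij, if_false]
              refine vol_pre _ ?_ _
              exact sub_ne_zero.2 fun h => hij (hk h)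
        _ = ENNReal.ofReal ((d * d : ℕ) * (2 * (1 / (8 * (d : ℝ) ^ 2)))) := by
            rw [Finset.sum_const, Finset.card_univ, Fintype.card_prod, Fintype.card_fin,
              nsmul_eq_mul, ENNReal.ofReal_mul (Nat.cast_nonneg (d * d)), ENNReal.ofReal_natCast]
        _ = _ := by congr 1; push_cast; field_simp; norm_num
    calc _ ≤ ENNReal.ofReal (1 / 4) + ENNReal.ofReal (1 / 4) := add_le_add h1 h2
      _ = ENNReal.ofReal (1 / 2) := by
          rw [← ENNReal.ofReal_add (by norm_num) (by norm_num)]; norm_num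
      _ < 1 := by
          rw [← ENNReal.ofReal_one]
          exact (ENNReal.ofReal_lt_ofReal_iff one_pos).2 (by norm_num)
  have hne : ∃ s : B, s ∉ ⋃ x, X x := by
    by_contra hcon
    push Not at hcon
    have h3 : (⋃ x, X x) = univ := eq_univ_of_forall hcon
    rw [h3] at hX
    have h4 : volume (univ : Set B) = 1 := by
      rw [AddCircle.measure_univ]; simp
    rw [h4] at hX
    exact lt_irrefl _ hX
  obtain ⟨s, hs⟩ := hne
  obtain ⟨S₀, rfl⟩ := QuotientAddGroup.mk_surjective s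
  rw [mem_iUnion, not_exists] at hs
  refine ⟨S₀, fun i z => ?_, fun i j hij z => ?_⟩
  · have h1 := hs (Sum.inl i)
    simp only [X, mem_ofPred_eq, not_le] at h1
    refine lt_of_lt_of_le h1 ?_
    have h2 : ((R * A i : ℝ) : B) + (R * k i : ℤ) • (QuotientAddGroup.mk S₀ : B) =
        (((R : ℝ) * (A i + k i * S₀) : ℝ) : B) := by
      show ((R * A i : ℝ) : B) + (R * k i : ℤ) • ((S₀ : ℝ) : B) = _
      rw [← AddCircle.coe_zsmul, ← AddCircle.coe_add]
      congr 1
      rw [zsmul_eq_mul]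
      push_cast
      ring
    rw [h2]
    exact norm_le_sub_int _ z
  · have h1 := hs (Sum.inr (i, j))
    simp only [X, hij, if_false, mem_ofPred_eq, not_le] at h1
    refine lt_of_lt_of_le h1 ?_
    have h2 : ((A i - A j : ℝ) : B) + (k i - k j) • (QuotientAddGroup.mk S₀ : B) =
        (((A i - A j) + ((k i : ℝ) - k j) * S₀ : ℝ) : B) := by
      show ((A i - A j : ℝ) : B) + (k i - k j : ℤ) • ((S₀ : ℝ) : B) = _
      rw [← AddCircle.coe_zsmul, ← AddCircle.coe_add]
      congr 1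
      rw [zsmul_eq_mul]
      push_cast
      ring
    rw [h2]
    exact norm_le_sub_int _ z

/-- The phase function: on `[b, b+1]` it runs `N b` times around the circle. -/
noncomputable def ph (N : ℤ → ℕ) (y : ℝ) : Circle := Circle.exp (2 * π * (N ⌊y⌋ * Int.fract y))

lemma exp_int (z : ℤ) : Circle.exp (2 * π * z) = 1 := Circle.exp_two_pi_mul_int z

lemma ph_eq (N : ℤ → ℕ) (b : ℤ) {y : ℝ} (h : y ∈ Icc (b : ℝ) (b + 1)) :
    ph N y = Circle.exp (2 * π * (N b * (y - b))) := by
  unfold ph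
  rcases h.2.lt_or_eq with h2 | h2
  · have h3 : ⌊y⌋ = b := Int.floor_eq_iff.2 ⟨h.1, h2⟩
    rw [h3, ← Int.self_sub_floor, h3]
  · have h3 : ((b + 1 : ℤ) : ℝ) = y := by push_cast; exact h2.symm
    rw [← h3, Int.fract_intCast]
    have e : ((b + 1 : ℤ) : ℝ) - b = 1 := by push_cast; ring
    rw [e, mul_zero, mul_zero, Circle.exp_zero, mul_one]
    have := exp_int (N b)
    push_cast at this
    exact this.symm

lemma continuous_ph (N : ℤ → ℕ) : Continuous (ph N) := by
  have hl : LocallyFinite fun b : ℤ => Icc (b : ℝ) (b + 1) := by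
    intro x
    refine ⟨Ioo (x - 1) (x + 1), Ioo_mem_nhds (by linarith) (by linarith), ?_⟩
    refine (Set.finite_Icc (⌊x⌋ - 3) (⌊x⌋ + 3)).subset ?_
    rintro b ⟨y, hy1, hy2⟩
    have h1 := Int.floor_le x
    have h2 := Int.lt_floor_add_one x
    constructor
    · have : ((⌊x⌋ - 3 : ℤ) : ℝ) ≤ b := by push_cast; linarith [hy1.2, hy2.1]
      exact_mod_cast this
    · have : ((b : ℤ) : ℝ) ≤ (⌊x⌋ + 3 : ℤ) := by push_cast; linarith [hy1.1, hy2.2]
      exact_mod_cast this
  refine hl.continuous ?_ (fun b => isClosed_Icc) fun b => ?_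
  · refine eq_univ_of_forall fun y => mem_iUnion.2 ⟨⌊y⌋, Int.floor_le y, ?_⟩
    exact (Int.lt_floor_add_one y).le
  · have h1 : Continuous fun y : ℝ => Circle.exp (2 * π * (N b * (y - b))) := by fun_prop
    exact h1.continuousOn.congr fun y hy => ph_eq N b hy

lemma ph_periodic {N : ℤ → ℕ} {R : ℕ} (hN : ∀ b, N (b + R) = N b) :
    Function.Periodic (fun x : ℝ => ph N (R * x)) 1 := by
  intro x
  show ph N (R * (x + 1)) = ph N (R * x)
  have e : (R : ℝ) * (x + 1) = R * x + ((R : ℤ) : ℝ) := by push_cast; ring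
  rw [e]
  unfold ph
  rw [Int.floor_add_intCast, Int.fract_add_intCast, hN]

/-- The multiplier. -/
noncomputable def mlt {N : ℤ → ℕ} {R : ℕ} (hN : ∀ b, N (b + R) = N b) : B → Circle :=
  (ph_periodic hN).lift

lemma mlt_coe {N : ℤ → ℕ} {R : ℕ} (hN : ∀ b, N (b + R) = N b) (x : ℝ) :
    mlt hN (x : B) = ph N (R * x) := rfl

lemma continuous_mlt {N : ℤ → ℕ} {R : ℕ} (hN : ∀ b, N (b + R) = N b) : Continuous (mlt hN) := by
  have h1 : Continuous (fun x : ℝ => ph N (R * x)) :=
    (continuous_ph N).comp (continuous_const.mul continuous_id)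
  exact h1.quotient_liftOn' _

/-- A loop of rotations with joint almost arbitrary values along `a i + k i • s`. -/
theorem exists_loopK {d : ℕ} (k : Fin d → ℤ) (hk0 : ∀ i, k i ≠ 0) (hk : Function.Injective k)
    {δ : ℝ} (hδ : 0 < δ) : ∃ L : Lp, ∀ (a : Fin d → B) (κ l : Fin d → Circle),
    ∃ s : B, ∀ i, dist (L.f (a i + k i • s) (κ i)) (l i) < δ := by
  rcases Nat.eq_zero_or_pos d with rfl | hd
  · exact ⟨Lp.one, fun _ _ _ => ⟨0, fun i => i.elim0⟩⟩
  have hd' : (0 : ℝ) < d := by exact_mod_cast hd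
  have hd1 : (1 : ℝ) ≤ d := by exact_mod_cast hd
  set R : ℕ := 8 * d ^ 2 with hR
  have hR1 : 1 ≤ R := by
    have : 0 < d ^ 2 := by positivity
    omega
  have hR0 : (0 : ℝ) < R := by exact_mod_cast hR1
  have hR1' : (1 : ℝ) ≤ R := by exact_mod_cast hR1
  set K : ℝ := ∑ i, |(k i : ℝ)| with hK
  have hKi : ∀ i, |(k i : ℝ)| ≤ K := fun i =>
    Finset.single_le_sum (f := fun i => |(k i : ℝ)|) (fun i _ => abs_nonneg _) (Finset.mem_univ i)
  have hk1 : ∀ i, 1 ≤ |(k i : ℝ)| := fun i => by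
    have := Int.one_le_abs (hk0 i)
    exact_mod_cast this
  have hK1 : 1 ≤ K := (hk1 ⟨0, hd⟩).trans (hKi ⟨0, hd⟩)
  set δ' : ℝ := min 1 (δ / 8) with hδ'
  have hδ'0 : 0 < δ' := lt_min one_pos (by linarith)
  have hδ'1 : δ' ≤ 1 := min_le_left _ _
  have hδ'8 : δ' ≤ δ / 8 := min_le_right _ _
  set ρ : ℝ := 1 / (8 * (d : ℝ)) with hρ
  have hρ0 : 0 < ρ := by positivity
  set lam : ℝ := ρ / (R * K) with hlam
  have hlam0 : 0 < lam := by positivity
  obtain ⟨H, hH⟩ := exists_nat_gt (max (2 * K / δ') (2 / lam))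
  have hH1 : 2 * K ≤ δ' * H := by
    have := (le_max_left (2 * K / δ') (2 / lam)).trans hH.le
    rw [div_le_iff₀ hδ'0] at this
    linarith
  have hH2 : 2 ≤ H * lam := by
    have := (le_max_right (2 * K / δ') (2 / lam)).trans hH.le
    rwa [div_le_iff₀ hlam0] at this
  have hHpos : (0 : ℝ) < H := by
    by_contra h
    have := mul_nonpos_of_nonpos_of_nonneg (not_lt.1 h) hlam0.le
    linarith
  have hHge1 : (1 : ℝ) ≤ H := by
    have : 0 < H := by exact_mod_cast hHpos
    exact_mod_cast this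
  let N : ℤ → ℕ := fun b => H ^ ((b % (R : ℤ)).toNat + 1)
  have hN : ∀ b, N (b + R) = N b := fun b => by
    show H ^ (((b + R) % (R : ℤ)).toNat + 1) = H ^ ((b % (R : ℤ)).toNat + 1)
    rw [Int.add_emod_right]
  have hc := continuous_mlt hN
  refine ⟨⟨fun s z => mlt hN s * z, fun s z => (mlt hN s)⁻¹ * z,
    (hc.comp continuous_fst).mul continuous_snd,
    (hc.comp continuous_fst).inv.mul continuous_snd,
    fun s z => mul_inv_cancel_left _ _, fun s z => inv_mul_cancel_left _ _⟩, ?_⟩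
  intro a κ l
  choose A hA using fun i => QuotientAddGroup.mk_surjective (a i)
  choose β hβ using fun i => Circle.exp_surjective (l i * (κ i)⁻¹)
  obtain ⟨S₀, hS1, hS2⟩ := exists_good hd k hk0 hk A
  rw [← hR] at hS1
  -- the blocks
  set b : Fin d → ℤ := fun i => ⌊(R : ℝ) * (A i + k i * S₀)⌋ with hb
  have hmod : ∀ i j, i ≠ j → b i % (R : ℤ) ≠ b j % (R : ℤ) := by
    intro i j hij hmod
    have h1 : b i ≡ b j [ZMOD (R : ℤ)] := hmod
    obtain ⟨z, hz⟩ := h1.dvd
    have h2 := hS2 i j hij (-z)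
    have hz' : (b j : ℝ) - b i = R * z := by exact_mod_cast hz
    have f1 := Int.floor_le ((R : ℝ) * (A i + k i * S₀))
    have f2 := Int.lt_floor_add_one ((R : ℝ) * (A i + k i * S₀))
    have f3 := Int.floor_le ((R : ℝ) * (A j + k j * S₀))
    have f4 := Int.lt_floor_add_one ((R : ℝ) * (A j + k j * S₀))
    have e1 : (R : ℝ) = 8 * (d : ℝ) ^ 2 := by rw [hR]; push_cast; ring
    rw [← e1, lt_abs] at h2
    have e2 : (R : ℝ) * ((A i - A j) + ((k i : ℝ) - k j) * S₀ - ((-z : ℤ) : ℝ)) =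
        (R * (A i + k i * S₀) - b i) - (R * (A j + k j * S₀) - b j) := by
      push_cast
      linear_combination (-1 : ℝ) * hz'
    rcases h2 with h2 | h2
    · have h3 : (R : ℝ) * (1 / R) < R * ((A i - A j) + ((k i : ℝ) - k j) * S₀ - ((-z : ℤ) : ℝ)) := by
        gcongr
      rw [e2, mul_one_div_cancel hR0.ne'] at h3
      linarith
    · have h3 : (R : ℝ) * (1 / R) < R * (-((A i - A j) + ((k i : ℝ) - k j) * S₀ - ((-z : ℤ) : ℝ))) := by
        gcongr
      rw [mul_neg, e2, mul_one_div_cancel hR0.ne'] at h3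
      linarith
  set e : Fin d → ℕ := fun i => (b i % (R : ℤ)).toNat with he
  have hRz : (R : ℤ) ≠ 0 := by exact_mod_cast (by omega : R ≠ 0)
  have hene : ∀ i j, i ≠ j → e i ≠ e j := by
    intro i j hij h
    apply hmod i j hij
    have h1 := Int.emod_nonneg (b i) hRz
    have h2 := Int.emod_nonneg (b j) hRz
    have h3 : (b i % (R : ℤ)).toNat = (b j % (R : ℤ)).toNat := h
    omega
  have hNe : ∀ i, (N (b i) : ℝ) = (H : ℝ) ^ (e i + 1) := fun i => by
    show ((H ^ ((b i % (R : ℤ)).toNat + 1) : ℕ) : ℝ) = _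
    push_cast
    rfl
  set f : Fin d → ℝ := fun i => (H : ℝ) ^ (e i + 1) * R * k i with hf
  set c : Fin d → ℝ := fun i => (H : ℝ) ^ (e i + 1) * (R * A i - b i) with hcc
  set τ : Fin d → ℝ := fun i => β i / (2 * π) with hτ
  have habs : ∀ i, |f i| = (H : ℝ) ^ (e i + 1) * R * |(k i : ℝ)| := fun i => by
    simp only [hf]
    rw [abs_mul, abs_of_pos (by positivity)]
  have key : ∀ i j, e i < e j → 2 * |f i| ≤ δ' * |f j| := by
    intro i j hij
    rw [habs, habs]
    have h1 : (H : ℝ) ^ (e i + 1) * H ≤ (H : ℝ) ^ (e j + 1) := by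
      rw [← pow_succ]
      exact pow_le_pow_right₀ hHge1 (by omega)
    calc 2 * ((H : ℝ) ^ (e i + 1) * R * |(k i : ℝ)|)
        ≤ 2 * ((H : ℝ) ^ (e i + 1) * R * K) := by
          have := hKi i
          gcongr
      _ = (H : ℝ) ^ (e i + 1) * R * (2 * K) := by ring
      _ ≤ (H : ℝ) ^ (e i + 1) * R * (δ' * H) := by gcongr
      _ = δ' * (((H : ℝ) ^ (e i + 1) * H) * R * 1) := by ring
      _ ≤ δ' * ((H : ℝ) ^ (e j + 1) * R * |(k j : ℝ)|) := by
          have := hk1 j
          gcongr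
  obtain ⟨s, hs1, hs2, hs3⟩ := nested hδ'0 hδ'1 f c τ Finset.univ
    (fun i _ j _ hij => by
      rcases lt_or_gt_of_ne (hene i j hij) with h | h
      · exact Or.inl (key i j h)
      · exact Or.inr (key j i h)) S₀ lam hlam0.le
    (fun i _ => by
      rw [habs]
      have h1 : (H : ℝ) ≤ (H : ℝ) ^ (e i + 1) := by
        rw [pow_succ]
        exact le_mul_of_one_le_left hHpos.le (one_le_pow₀ hHge1)
      have h2 : (H : ℝ) * 1 * 1 ≤ (H : ℝ) ^ (e i + 1) * R * |(k i : ℝ)| := by
        have := hk1 i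
        gcongr
      calc (2 : ℝ) ≤ H * lam := hH2
        _ = (H * 1 * 1) * lam := by ring
        _ ≤ _ := by gcongr)
  refine ⟨((s : ℝ) : B), fun i => ?_⟩
  obtain ⟨z, hz⟩ := hs3 i (Finset.mem_univ i)
  -- the point stays in its block
  have hblock : (R : ℝ) * (A i + k i * s) ∈ Icc (b i : ℝ) (b i + 1) := by
    have f1 := Int.floor_le ((R : ℝ) * (A i + k i * S₀))
    have f2 := Int.lt_floor_add_one ((R : ℝ) * (A i + k i * S₀))
    have g1 := hS1 i (b i)
    have g2 := hS1 i (b i + 1)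
    have hbi : (b i : ℝ) = ⌊(R : ℝ) * (A i + k i * S₀)⌋ := rfl
    rw [← hρ] at g1 g2
    rw [abs_of_nonneg (by rw [hbi]; linarith)] at g1
    rw [abs_of_nonpos (by push_cast; rw [hbi]; linarith)] at g2
    push_cast at g2
    have h3 : |(R : ℝ) * (A i + k i * s) - R * (A i + k i * S₀)| ≤ ρ := by
      have e1 : (R : ℝ) * (A i + k i * s) - R * (A i + k i * S₀) = R * (k i * (s - S₀)) := by ring
      rw [e1, abs_mul, abs_mul, abs_of_pos hR0, abs_of_nonneg (by linarith : 0 ≤ s - S₀)]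
      calc (R : ℝ) * (|(k i : ℝ)| * (s - S₀)) ≤ R * (K * lam) := by
            have := hKi i
            have : s - S₀ ≤ lam := by linarith
            gcongr
        _ = ρ := by rw [hlam]; field_simp
    rw [abs_le] at h3
    constructor <;> linarith
  have e1 : a i + k i • ((s : ℝ) : B) = ((A i + k i * s : ℝ) : B) := by
    rw [← hA i]
    show ((A i : ℝ) : B) + k i • ((s : ℝ) : B) = _
    rw [← AddCircle.coe_zsmul, ← AddCircle.coe_add, zsmul_eq_mul]
  show dist (mlt hN (a i + k i • ((s : ℝ) : B)) * κ i) (l i) < δ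
  rw [e1, mlt_coe, ph_eq N (b i) hblock, hNe]
  have e2 : l i = κ i * Circle.exp (β i) := by
    rw [hβ i, mul_comm (l i), mul_inv_cancel_left]
  have e3 : Circle.exp (2 * π * ((H : ℝ) ^ (e i + 1) * (R * (A i + k i * s) - b i))) =
      Circle.exp (2 * π * (c i + f i * s - z)) := by
    have e4 : 2 * π * ((H : ℝ) ^ (e i + 1) * (R * (A i + k i * s) - b i)) =
        2 * π * (c i + f i * s - z) + 2 * π * z := by
      simp only [hcc, hf]
      ring
    rw [e4, Circle.exp_add, exp_int, mul_one]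
  rw [e2, e3, mul_comm, dist_circle_mul, circle_dist]
  refine lt_of_le_of_lt (exp_dist _ _) ?_
  have hπ := Real.pi_pos
  have e5 : 2 * π * (c i + f i * s - z) - β i = 2 * π * (c i + f i * s - τ i - z) := by
    simp only [hτ]
    field_simp
    ring
  rw [e5, abs_mul, abs_of_pos (by positivity)]
  have hπ4 := Real.pi_lt_four
  calc 2 * π * |c i + f i * s - τ i - z| ≤ 2 * π * (δ / 8) := by
        gcongr
        exact hz.trans hδ'8
    _ < δ := by nlinarith

end Pool.Agent.KS6_65.MP
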